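import Pool.Agent.H83.AR.Targets

/-!
Local smoothing with one angular derivative, stage 2: targets of part E.
The restricted type estimate on `ℝ^(n+1)` with an additional cutoff of the last frequency and on
slabs `|x_last| ≤ δ`.
-/

set_option autoImplicit false

namespace Pool.Agent.H83.AR

open MeasureTheory Set FourierTransform
open Pool.Agent.H83.LS Pool.Agent.H93.AR Pool.Agent.H54.LS Pool.Agent.H14.LS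
open scoped ENNReal NNReal SchwartzMap

/-- measurable, integrable, bounded by `A` -/
def BI {d : ℕ} (A : ℝ) (f : EE d → ℂ) : Prop := Measurable f ∧ Integrable f ∧ ∀ x, ‖f x‖ ≤ A

/-- kernel of the cutoff `chis (s / M)` on the line -/
noncomputable def pk (M z : ℝ) : ℂ := ∫ s : ℝ, e (z * s) * ((chis (s / M) : ℝ) : ℂ)

/-- cutoff of the last frequency -/
noncomputable def cz {n : ℕ} (M : ℝ) (f : EE (n + 1) → ℂ) (x : EE (n + 1)) : ℂ :=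
  ∫ z : ℝ, pk M (x (Fin.last n) - z) * f (jo (pr x) z)

/-- cutoff of the second frequency in the plane -/
noncomputable def cy (M : ℝ) (g : ℝ × ℝ → ℂ) (x : ℝ × ℝ) : ℂ :=
  ∫ z : ℝ, pk M (x.2 - z) * g (x.1, z)

/-- the symbol `mT` with a cutoff of the last frequency -/
noncomputable def mS (n : ℕ) (lam M t : ℝ) (ξ : EE (n + 1)) : ℂ :=
  mT lam t ξ * ((chis (ξ (Fin.last n) / M) : ℝ) : ℂ)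

/-- the pieces of `mS` -/
noncomputable def mj2 (n : ℕ) (lam Lam M t : ℝ) (ξ : EE (n + 1)) : ℂ :=
  mj n lam Lam t ξ * ((chis (ξ (Fin.last n) / M) : ℝ) : ℂ)

/-- the kernel in the plane with both cutoffs -/
noncomputable def KK2 (t lam Lam M : ℝ) (x : ℝ × ℝ) : ℂ :=
  ∫ ξ : ℝ × ℝ, e (x.1 * ξ.1 + x.2 * ξ.2 + t * Real.sqrt (ξ.1 ^ 2 + ξ.2 ^ 2)) *
    ((chi (Real.sqrt (ξ.1 ^ 2 + ξ.2 ^ 2) / lam) * chis (ξ.1 / Lam) * chis (ξ.2 / M) : ℝ) : ℂ)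

/-- CZ: the cutoff of the last frequency -/
def T_CZ : Prop := ∀ n : ℕ, 1 ≤ n → ∃ C : ℝ, 0 ≤ C ∧ ∀ (M A : ℝ) (f : EE (n + 1) → ℂ),
  0 < M → BI A f → BI (C * A) (cz M f) ∧
  (∫⁻ x, ‖cz M f x‖ₑ ^ 2 ≤ ENNReal.ofReal C * ∫⁻ x, ‖f x‖ₑ ^ 2) ∧
  (∀ ξ, 𝓕 (cz M f) ξ = ((chis (ξ (Fin.last n) / M) : ℝ) : ℂ) * 𝓕 f ξ) ∧
  (∀ (m : EE (n + 1) → ℂ) (x : EE (n + 1)),
    MM (fun ξ => m ξ * ((chis (ξ (Fin.last n) / M) : ℝ) : ℂ)) f x = MM m (cz M f) x) ∧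
  (∀ (S : Set ℝ), (∀ x, f x ≠ 0 → hor x ∈ S) → ∀ x, cz M f x ≠ 0 → hor x ∈ S) ∧
  (∀ (S : Set ℝ) (x : EE (n + 1)), cz M ({x | hor x ∈ S}.indicator f) x =
    {x | hor x ∈ S}.indicator (cz M f) x) ∧
  (∀ L : ℝ, 1 ≤ L → ∀ x, AL L (cz M f) x = cz M (AL L f) x)

/-- CY: the same in the plane -/
def T_CY : Prop := ∃ C : ℝ, 0 ≤ C ∧ ∀ (M A : ℝ) (g : ℝ × ℝ → ℂ), 0 < M → Measurable g →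
  Integrable g → (∀ x, ‖g x‖ ≤ A) →
  Measurable (cy M g) ∧ Integrable (cy M g) ∧ (∀ x, ‖cy M g x‖ ≤ C * A) ∧
  (∀ (x₁ B : ℝ), (∀ z, ‖g (x₁, z)‖ ≤ B) → ∀ z, ‖cy M g (x₁, z)‖ ≤ C * B) ∧
  (∀ S : Set ℝ, MeasurableSet S → ∫⁻ x in {x : ℝ × ℝ | x.1 ∈ S}, ‖cy M g x‖ₑ ^ 2 ≤
    ENNReal.ofReal C * ∫⁻ x in {x : ℝ × ℝ | x.1 ∈ S}, ‖g x‖ₑ ^ 2) ∧
  ∀ (t lam Lam : ℝ) (x : ℝ × ℝ), 0 < lam → 0 < Lam →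
    cv (KK2 t lam Lam M) g x = cv (KK t lam Lam) (cy M g) x

/-- S22: the plane with both cutoffs, slabs in the second variable -/
def T_S22 : Prop := ∀ p η : ℝ, 2 < p → p ≤ 3 → 0 < η → ∃ C : ℝ≥0, ∀ (lam Lam M : ℝ)
  (g : ℝ × ℝ → ℂ) (A : ℝ), 1 ≤ lam → 0 < Lam → Lam ≤ 4 * lam → 0 < M → M ≤ 4 * lam →
  Measurable g → Integrable g → (∀ y, ‖g y‖ ≤ A) →
  (∫⁻ t in Icc (1 : ℝ) 2, ∫⁻ x, ‖cv (KK2 t lam Lam M) g x‖ₑ ^ p ≤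
    C * ENNReal.ofReal (lam ^ η * A ^ (p - 2)) * ∫⁻ y, ‖g y‖ₑ ^ 2) ∧
  (∀ δ : ℝ, 0 < δ →
    ∫⁻ t in Icc (1 : ℝ) 2, ∫⁻ x in {x : ℝ × ℝ | |x.1| ≤ δ}, ‖cv (KK2 t lam Lam M) g x‖ₑ ^ p ≤
      C * ENNReal.ofReal (lam ^ η * (δ * lam / Lam) ^ (2 - p / 2) * A ^ (p - 2)) *
        ∫⁻ y, ‖g y‖ₑ ^ 2) ∧
  (∀ δ : ℝ, 0 < δ →
    ∫⁻ t in Icc (1 : ℝ) 2, ∫⁻ x in {x : ℝ × ℝ | |x.2| ≤ δ}, ‖cv (KK2 t lam Lam M) g x‖ₑ ^ p ≤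
      C * ENNReal.ofReal (lam ^ η * (δ * lam / M) ^ (2 - p / 2) * A ^ (p - 2)) *
        ∫⁻ y, ‖g y‖ₑ ^ 2)

/-- ST2: slabs in both variables for functions concentrated away from `x₁ = 0` -/
def T_ST2 : Prop := ∀ p β γ η : ℝ, 2 < p → p ≤ 3 → 0 ≤ β → β < 1 → 0 ≤ γ →
  β + γ ≤ 2 - p / 2 → 0 < η →
  ∃ (N : ℕ) (C : ℝ), 0 ≤ C ∧ ∀ (lam Lam M A D δ ε : ℝ) (g : ℝ × ℝ → ℂ) (X : ℝ≥0∞),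
  1 ≤ lam → 1 ≤ Lam → Lam ≤ 4 * lam → 1 ≤ M → M ≤ 4 * lam → 0 < D → D ≤ 64 → Measurable g →
  Integrable g → (∀ x, ‖g x‖ ≤ A) → ∫⁻ x, ‖g x‖ₑ ^ 2 ≤ X →
  (1 ≤ Lam * D → (∀ x : ℝ × ℝ, |x.1| ≤ D / 2 → ‖g x‖ ≤ A / (Lam * D) ^ N) ∧
    ∫⁻ x in {x : ℝ × ℝ | |x.1| ≤ D / 2}, ‖g x‖ₑ ^ 2 ≤
      ENNReal.ofReal (1 / (Lam * D) ^ N) * X) →
  1 / Lam ≤ δ → δ ≤ D / 16 → 1 / M ≤ ε →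
  ∫⁻ t in Icc (1 : ℝ) 2, ∫⁻ x in {x : ℝ × ℝ | |x.1| ≤ δ ∧ |x.2| ≤ ε},
      ‖cv (KK2 t lam Lam M) g x‖ₑ ^ p ≤
    ENNReal.ofReal (C * (lam ^ η * (δ / D) ^ β * (ε * lam / M) ^ γ * A ^ (p - 2))) * X

/-- WP2: the weighted estimate in the plane on slabs in the second variable -/
def T_WP2 : Prop := ∀ p β γ η : ℝ, 2 < p → p ≤ 3 → 0 ≤ β → β < 1 → 0 ≤ γ →
  β + γ ≤ 2 - p / 2 → 0 < η →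
  ∃ (N : ℕ) (C : ℝ≥0), ∀ (lam Lam M A D ε : ℝ) (g : ℝ × ℝ → ℂ) (X : ℝ≥0∞),
  1 ≤ lam → 1 ≤ Lam → Lam ≤ 4 * lam → 1 ≤ M → M ≤ 4 * lam → 1 ≤ Lam * D → D ≤ 64 →
  Measurable g → Integrable g → (∀ x, ‖g x‖ ≤ A) → ∫⁻ x, ‖g x‖ₑ ^ 2 ≤ X →
  (∀ x : ℝ × ℝ, |x.1| ≤ D / 2 → ‖g x‖ ≤ A / (Lam * D) ^ N) →
  ∫⁻ x in {x : ℝ × ℝ | |x.1| ≤ D / 2}, ‖g x‖ₑ ^ 2 ≤ ENNReal.ofReal (1 / (Lam * D) ^ N) * X →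
  1 / M ≤ ε →
  ∫⁻ t in Icc (1 : ℝ) 2, ∫⁻ x in {x : ℝ × ℝ | |x.2| ≤ ε}, ‖cv (KK2 t lam Lam M) g x‖ₑ ^ p *
      ENNReal.ofReal ((|x.1| + 1 / Lam) ^ (-β)) ≤
    C * ENNReal.ofReal (lam ^ η * D ^ (-β) * (ε * lam / M) ^ γ * A ^ (p - 2)) * X

/-- RB2: the multiplier `mj2` in polar coordinates -/
def T_RB2 : Prop := ∀ (n : ℕ) (L lam Lam M t B r z : ℝ) (f : EE (n + 1) → ℂ) (w : Sp n), 2 ≤ n →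
  1 ≤ L → 0 < lam → 0 < Lam → 0 < M → BCd B f → 0 < r →
  ((r ^ (((n : ℝ) - 1) / 2) : ℝ) : ℂ) *
    MM (mj2 n lam Lam M t) (AL L (AL L f)) (jo (r • (w : EE n)) z) =
  ∫ v : Sp n, ∫ ζ in {ζ : ℝ × ℝ | 0 < ζ.1}, e (z * ζ.2 + t * Real.sqrt (ζ.1 ^ 2 + ζ.2 ^ 2)) *
    ((chi (Real.sqrt (ζ.1 ^ 2 + ζ.2 ^ 2) / lam) * chi (ζ.1 / Lam) * chis (ζ.2 / M) *
      ((r * ζ.1) ^ (((n : ℝ) - 1) / 2) * ζ.1 ^ (((n : ℝ) - 1) / 2)) : ℝ) : ℂ) *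
    ((starRingEnd ℂ) (ZL n L (r * ζ.1) w v) * 𝓕 (AL L f) (jo (ζ.1 • (v : EE n)) ζ.2))
      ∂volume ∂(sg n)

/-- RO2: reduction to the plane for `mj2` -/
def T_RO2 : Prop := ∀ (n : ℕ) (L lam Lam M t B r z : ℝ) (f : EE (n + 1) → ℂ) (w : Sp n), 2 ≤ n →
  1 ≤ L → 0 < lam → 0 < Lam → 0 < M → BCd B f → (∀ x, f x ≠ 0 → L ^ 2 ≤ Lam * hor x) → 0 < r →
  L ^ 2 ≤ Lam * r →
  ((r ^ (((n : ℝ) - 1) / 2) : ℝ) : ℂ) *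
    MM (mj2 n lam Lam M t) (AL L (AL L f)) (jo (r • (w : EE n)) z) =
  ∫ v : Sp n, ∫ x₁ : ℝ, (starRingEnd ℂ) (((Lam : ℝ) : ℂ) *
      kz n L (fun s => ((chis s : ℝ) : ℂ)) (Lam * x₁) (Lam * r) w v) *
    cv (KK2 t lam Lam M) (GT n L Lam f v) (x₁, z) ∂volume ∂(sg n)

/-- PA2: back from the plane for `mj2`, slabs in the last variable -/
def T_PA2 : Prop := ∀ (n : ℕ) (p : ℝ), 2 ≤ n → 1 ≤ p → ((n : ℝ) - 1) * (p / 2 - 1) < 1 →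
  0 ≤ ((n : ℝ) - 1) * (p / 2 - 1) → ∃ C : ℝ≥0, ∀ (L lam Lam M t B ε : ℝ) (f : EE (n + 1) → ℂ)
  (R : Set ℝ), 1 ≤ L → 0 < lam → 0 < Lam → 0 < M → BCd B f →
  (∀ x, f x ≠ 0 → L ^ 2 ≤ Lam * hor x) → MeasurableSet R → (∀ r ∈ R, 0 < r ∧ L ^ 2 ≤ Lam * r) →
  (∫⁻ x in {x : EE (n + 1) | hor x ∈ R ∧ |x (Fin.last n)| ≤ ε},
      ‖MM (mj2 n lam Lam M t) (AL L (AL L f)) x‖ₑ ^ p ≤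
    C * ∫⁻ v : Sp n, ∫⁻ x in {x : ℝ × ℝ | |x.2| ≤ ε},
      ‖cv (KK2 t lam Lam M) (GT n L Lam f v) x‖ₑ ^ p *
      ENNReal.ofReal ((|x.1| + 1 / Lam) ^ (-(((n : ℝ) - 1) * (p / 2 - 1)))) ∂volume ∂(sg n)) ∧
  (∀ D : ℝ, 0 < D → (∀ r ∈ R, D ≤ r) →
    ∫⁻ x in {x : EE (n + 1) | hor x ∈ R ∧ |x (Fin.last n)| ≤ ε},
      ‖MM (mj2 n lam Lam M t) (AL L (AL L f)) x‖ₑ ^ p ≤
    C * ENNReal.ofReal (D ^ (-(((n : ℝ) - 1) * (p / 2 - 1)))) *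
      ∫⁻ v : Sp n, ∫⁻ x in {x : ℝ × ℝ | |x.2| ≤ ε},
        ‖cv (KK2 t lam Lam M) (GT n L Lam f v) x‖ₑ ^ p ∂volume ∂(sg n))

/-- TZ: energy on slabs in the last variable -/
def T_TZ : Prop := ∀ n : ℕ, 1 ≤ n → ∃ C : ℝ≥0, ∀ (lam M δ A : ℝ) (m f : EE (n + 1) → ℂ),
  1 ≤ lam → 0 < M → M ≤ 4 * lam → 0 < δ → Measurable m → (∀ ξ, ‖m ξ‖ ≤ 1) →
  (∀ ξ, m ξ ≠ 0 → lam / 2 ≤ ‖ξ‖ ∧ ‖ξ‖ ≤ 2 * lam) → BI A f →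
  ∫⁻ t in Icc (1 : ℝ) 2, ∫⁻ x in {x : EE (n + 1) | |x (Fin.last n)| ≤ δ},
      ‖MM (fun ξ => e (t * ‖ξ‖) * m ξ * ((chis (ξ (Fin.last n) / M) : ℝ) : ℂ)) f x‖ₑ ^ 2 ≤
    C * ENNReal.ofReal (δ * lam / M) * ∫⁻ x, ‖f x‖ₑ ^ 2

/-- LI, part 1: pointwise limits -/
def T_LI : Prop := ∀ (n : ℕ) (L A : ℝ) (m f : EE (n + 1) → ℂ), 1 ≤ n → 1 ≤ L → BI A f →
  Measurable m → Integrable m → ∀ x, Filter.Tendsto (fun k : ℕ => MM m (AL L (AL L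
    ((Metric.closedBall (0 : EE (n + 1)) (k : ℝ)).indicator f))) x) Filter.atTop
    (nhds (MM m (AL L (AL L f)) x)) ∧
  Filter.Tendsto (fun k : ℕ => MM m ((Metric.closedBall (0 : EE (n + 1)) (k : ℝ)).indicator f) x)
    Filter.atTop (nhds (MM m f x))

/-- SUI: `T_SU`, `T_SV`, `T_TE`, `T_MA` for bounded integrable functions -/
def T_SUI : Prop := ∀ n : ℕ, 2 ≤ n → ∃ C : ℝ, 0 ≤ C ∧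
  (∀ (lam Lam t A : ℝ) (f : EE (n + 1) → ℂ),
    1 ≤ lam → 1 ≤ Lam → Lam ≤ 4 * lam → t ∈ Icc (1 : ℝ) 2 → BI A f → ∀ x,
    ‖MM (mj n lam Lam t) f x‖ ≤ C * (1 + Lam ^ 2 / lam) ^ ((n : ℝ) / 2) * A) ∧
  (∀ (lam Lam t A δ : ℝ) (f : EE (n + 1) → ℂ), 1 ≤ lam → 1 ≤ Lam → Lam ≤ 4 * lam →
    t ∈ Icc (1 : ℝ) 2 → BI A f → lam ≤ Lam ^ 2 → 1 / Lam ≤ δ → δ ≤ Lam / lam →
    (∀ x, f x ≠ 0 → hor x ≤ δ) → ∀ x,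
    ‖MM (mj n lam Lam t) f x‖ ≤ C * (δ * Lam) ^ ((n : ℝ) / 2) * A) ∧
  (∀ (lam Lam A δ : ℝ) (f : EE (n + 1) → ℂ),
    1 ≤ lam → 1 ≤ Lam → Lam ≤ 4 * lam → BI A f → 0 < δ →
    ∫⁻ t in Icc (1 : ℝ) 2, ∫⁻ x in {x : EE (n + 1) | hor x ≤ δ}, ‖MM (mj n lam Lam t) f x‖ₑ ^ 2 ≤
      ENNReal.ofReal C * ENNReal.ofReal (δ * lam / Lam) * ∫⁻ x, ‖f x‖ₑ ^ 2) ∧
  (∀ (lam t A : ℝ) (f : EE (n + 1) → ℂ), 1 ≤ lam → t ∈ Icc (1 : ℝ) 2 → BI A f → ∀ x,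
    ‖MM (m0 n lam t) f x‖ ≤ C * A)

/-- MAI: `T_MA` for bounded integrable functions -/
def T_MAI : Prop := ∀ (n : ℕ) (p η : ℝ), 2 ≤ n → 2 < p → p ≤ 2 + 2 / (n : ℝ) → 0 < η →
  ∃ C : ℝ≥0, ∀ (lam L A : ℝ) (f : EE (n + 1) → ℂ), 1 ≤ lam → 1 ≤ L → BI A f →
  ∫⁻ t in Icc (1 : ℝ) 2, ∫⁻ x, ‖MM (mT lam t) (AL L (AL L f)) x‖ₑ ^ p ≤
    C * ENNReal.ofReal (L ^ 2 * lam ^ η * A ^ (p - 2)) * ∫⁻ x, ‖f x‖ₑ ^ 2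

/-- PG2: good data, good output, slabs in the last variable -/
def T_PG2 : Prop := ∀ (n : ℕ) (p γ η : ℝ), 2 ≤ n → 2 < p → 0 ≤ γ →
  (n : ℝ) * (p / 2 - 1) + γ ≤ 1 → 0 < η →
  ∃ C : ℝ≥0, ∀ (lam Lam M L A ε : ℝ) (f : EE (n + 1) → ℂ), 1 ≤ lam → 1 ≤ Lam → Lam ≤ 4 * lam →
  1 ≤ M → M ≤ 4 * lam → 1 ≤ L → L ^ 2 ≤ 8 * Lam → BCd A f → 1 / M ≤ ε →
  ((∀ x, f x ≠ 0 → L ^ 2 ≤ Lam * hor x ∧ hor x ≤ 24) →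
    ∫⁻ t in Icc (1 : ℝ) 2, ∫⁻ x in {x : EE (n + 1) | L ^ 2 ≤ Lam * hor x ∧
      |x (Fin.last n)| ≤ ε}, ‖MM (mj2 n lam Lam M t) (AL L (AL L f)) x‖ₑ ^ p ≤
      C * ENNReal.ofReal (lam ^ η * (ε * lam / M) ^ γ * A ^ (p - 2)) * ∫⁻ x, ‖f x‖ₑ ^ 2) ∧
  (∀ i : ℕ, 2 ≤ i → (∀ x, f x ≠ 0 → 8 * ((i : ℝ) - 1) ≤ hor x ∧ hor x ≤ 8 * ((i : ℝ) + 2)) →
    ∫⁻ t in Icc (1 : ℝ) 2, ∫⁻ x in {x : EE (n + 1) | (8 * (i : ℝ) ≤ hor x ∧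
      hor x ≤ 8 * ((i : ℝ) + 1)) ∧ |x (Fin.last n)| ≤ ε},
      ‖MM (mj2 n lam Lam M t) (AL L (AL L f)) x‖ₑ ^ p ≤
      C * ENNReal.ofReal (lam ^ η * (ε * lam / M) ^ γ * A ^ (p - 2)) * ∫⁻ x, ‖f x‖ₑ ^ 2)

/-- PI2: one piece, localized data, slabs in the last variable -/
def T_PI2 : Prop := ∀ (n : ℕ) (p γ η : ℝ), 2 ≤ n → 2 < p → 0 ≤ γ →
  (n : ℝ) * (p / 2 - 1) + γ ≤ 1 → 0 < η →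
  ∃ C : ℝ≥0, ∀ (lam Lam M L A ε : ℝ) (f : EE (n + 1) → ℂ), 1 ≤ lam → 1 ≤ Lam → Lam ≤ 4 * lam →
  1 ≤ M → M ≤ 4 * lam → 1 ≤ L → BCd A f → 1 / M ≤ ε →
  ((∀ x, f x ≠ 0 → hor x ≤ 24) →
    ∫⁻ t in Icc (1 : ℝ) 2, ∫⁻ x in {x : EE (n + 1) | |x (Fin.last n)| ≤ ε},
      ‖MM (mj2 n lam Lam M t) (AL L (AL L f)) x‖ₑ ^ p ≤
      C * ENNReal.ofReal (L ^ 2 * lam ^ η * (ε * lam / M) ^ γ * A ^ (p - 2)) *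
        ∫⁻ x, ‖f x‖ₑ ^ 2) ∧
  (∀ i : ℕ, 2 ≤ i → (∀ x, f x ≠ 0 → 8 * ((i : ℝ) - 1) ≤ hor x ∧ hor x ≤ 8 * ((i : ℝ) + 2)) →
    ∫⁻ t in Icc (1 : ℝ) 2, ∫⁻ x in {x : EE (n + 1) | (8 * (i : ℝ) ≤ hor x ∧
      hor x ≤ 8 * ((i : ℝ) + 1)) ∧ |x (Fin.last n)| ≤ ε},
      ‖MM (mj2 n lam Lam M t) (AL L (AL L f)) x‖ₑ ^ p ≤
      C * ENNReal.ofReal (L ^ 2 * lam ^ η * (ε * lam / M) ^ γ * A ^ (p - 2)) *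
        ∫⁻ x, ‖f x‖ₑ ^ 2)

/-- FD: the kernel is rapidly decreasing at distance 4 -/
def T_FD : Prop := ∀ d N : ℕ, 2 ≤ d → ∃ C : ℝ≥0, ∀ lam t : ℝ, 1 ≤ lam → t ∈ Icc (1 : ℝ) 2 →
  ∫⁻ x in {x : EE d | 4 ≤ ‖x‖}, ‖MK (mT lam t) x‖ₑ ≤ C * ENNReal.ofReal ((lam ^ N)⁻¹)

/-- S1: restricted type estimate for `T A_L²` with a cutoff of the last frequency, also on slabs -/
def T_S1 : Prop := ∀ (n : ℕ) (p γ η : ℝ), 2 ≤ n → 2 < p → 0 ≤ γ →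
  (n : ℝ) * (p / 2 - 1) + γ ≤ 1 → 0 < η →
  ∃ C : ℝ≥0, ∀ (lam M L A : ℝ) (f : EE (n + 1) → ℂ), 1 ≤ lam → 1 ≤ M → M ≤ 4 * lam → 1 ≤ L →
  BI A f →
  (∫⁻ t in Icc (1 : ℝ) 2, ∫⁻ x, ‖MM (mS n lam M t) (AL L (AL L f)) x‖ₑ ^ p ≤
    C * ENNReal.ofReal (L ^ 2 * lam ^ η * A ^ (p - 2)) * ∫⁻ x, ‖f x‖ₑ ^ 2) ∧
  (∀ ε : ℝ, 1 / M ≤ ε → ∫⁻ t in Icc (1 : ℝ) 2, ∫⁻ x in {x : EE (n + 1) | |x (Fin.last n)| ≤ ε},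
      ‖MM (mS n lam M t) (AL L (AL L f)) x‖ₑ ^ p ≤
    C * ENNReal.ofReal (L ^ 2 * lam ^ η * (ε * lam / M) ^ γ * A ^ (p - 2)) *
      ∫⁻ x, ‖f x‖ₑ ^ 2)

end Pool.Agent.H83.AR
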