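import Pool.Agent.H83.AR.Targets3
import Pool.Agent.H93.AR.TargetsE

/-!
Bridges between the statements on angular averages in `Pool.Agent.H93.AR.TargetsE` and those of
`Pool.Agent.H83.AR.Targets3`.
-/

set_option autoImplicit false

namespace Pool.Agent.H83.AR

open MeasureTheory Set FourierTransform
open Pool.Agent.H83.LS Pool.Agent.H54.LS Pool.Agent.H14.LS
open scoped ENNReal NNReal SchwartzMap

theorem am2_of (h1 : Pool.Agent.H93.AR.T_AM1) (h2 : Pool.Agent.H93.AR.T_AM2) :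
    Pool.Agent.H83.AR.T_AM2 := by
  intro a b L P ha hb hL hP
  rcases hP with hP | hP
  · subst hP
    obtain ⟨e1, e2, e3, e4, e5, e6, -⟩ := h1 a b L ha hL
    refine ⟨e1, e2, e3, e4, fun f c x => ?_, e6⟩
    exact e5 f (fun r y => c r ‖y‖) x
  · subst hP
    obtain ⟨e1, e2, e3, e4, e5, e6, -⟩ := h2 a b L hb hL
    refine ⟨e1, e2, e3, e4, fun f c x => ?_, e6⟩
    exact e5 f (fun r y => c ‖y‖ r) x

theorem af2_of (h1 : Pool.Agent.H93.AR.T_AM1) (h2 : Pool.Agent.H93.AR.T_AM2) :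
    Pool.Agent.H83.AR.T_AF2 := by
  intro a b L f ha hb hL hf hi hB ξ
  obtain ⟨-, -, -, -, -, -, e1⟩ := h1 a b L ha hL
  obtain ⟨-, -, -, -, -, -, e2⟩ := h2 a b L hb hL
  exact ⟨e1 f hf hi hB ξ, e2 f hf hi hB ξ⟩

theorem ac2_of (h : Pool.Agent.H93.AR.T_AC2) : Pool.Agent.H83.AR.T_AC2 := by
  intro a b L L' f ha hb hL hL' hf hB x
  obtain ⟨e1, e2, e3⟩ := h a b L L' f ha hb hL hL' hf hB x
  exact ⟨e2, e1, e3⟩

theorem jb_of (h : Pool.Agent.H83.AR.T_JM) : Pool.Agent.H93.AR.T_JB := by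
  intro a b
  obtain ⟨e1, e2, e3, e4, e5, e6, e7, e8, e9, e10, e11, e12, e13, e14⟩ := h a b
  exact ⟨e9, e5, e6, e7, e1, e2, e3, e12, fun x => (e13 x).1,
    fun x => ⟨(e13 x).2.2.1, (e13 x).2.2.2⟩⟩

end Pool.Agent.H83.AR
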