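import Pool.Agent.H93.AR.Defs
import Pool.Agent.H14.LS.Main2

/-!
Local smoothing with one angular derivative, stage 2: definitions on `ℝ^(a+b) = ℝ^a × ℝ^b`.
The first block is inert, the second block is transplanted.
-/

set_option autoImplicit false

namespace Pool.Agent.H83.AR

open MeasureTheory Set FourierTransform
open Pool.Agent.H83.LS Pool.Agent.H93.AR Pool.Agent.H54.LS Pool.Agent.H14.LS
open scoped ENNReal NNReal SchwartzMap

/-- the first `a` coordinates -/
noncomputable def p1 (a b : ℕ) (x : EE (a + b)) : EE a :=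
  WithLp.toLp 2 (fun i => x (Fin.castAdd b i))

/-- the last `b` coordinates -/
noncomputable def p2 (a b : ℕ) (x : EE (a + b)) : EE b :=
  WithLp.toLp 2 (fun i => x (Fin.natAdd a i))

/-- the point `(y, z)` -/
noncomputable def jm (a b : ℕ) (y : EE a) (z : EE b) : EE (a + b) :=
  WithLp.toLp 2 (Fin.append (fun i => y i) (fun i => z i))

/-- exchange of the two blocks -/
noncomputable def sw (a b : ℕ) (x : EE (a + b)) : EE (b + a) := jm b a (p2 a b x) (p1 a b x)

/-- angular average at scale `1/L` in the first block -/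
noncomputable def A1 (a b : ℕ) (L : ℝ) (f : EE (a + b) → ℂ) (x : EE (a + b)) : ℂ :=
  ∫ w : Sp a, ((zk a L (‖p1 a b x‖⁻¹ • p1 a b x) (w : EE a) : ℝ) : ℂ) *
    f (jm a b (‖p1 a b x‖ • (w : EE a)) (p2 a b x)) ∂(sg a)

/-- angular average at scale `1/L` in the second block -/
noncomputable def A2 (a b : ℕ) (L : ℝ) (f : EE (a + b) → ℂ) (x : EE (a + b)) : ℂ :=
  ∫ w : Sp b, ((zk b L (‖p2 a b x‖⁻¹ • p2 a b x) (w : EE b) : ℝ) : ℂ) *
    f (jm a b (p1 a b x) (‖p2 a b x‖ • (w : EE b))) ∂(sg b)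

/-- both averages, twice -/
noncomputable def AQ (a b : ℕ) (L : ℝ) (f : EE (a + b) → ℂ) : EE (a + b) → ℂ :=
  A1 a b L (A1 a b L (A2 a b L (A2 a b L f)))

/-- the pieces: cutoff of the second block of frequencies -/
noncomputable def m2 (a b : ℕ) (lam Lam t : ℝ) (ξ : EE (a + b)) : ℂ :=
  mT lam t ξ * ((chi (‖p2 a b ξ‖ / Lam) : ℝ) : ℂ)

/-- the function on `ℝ^(a+1)` attached to the direction `v`; the last variable is the
transplanted one -/
noncomputable def GM (a b : ℕ) (L Lam : ℝ) (f : EE (a + b) → ℂ) (v : Sp b) (X : EE (a + 1)) : ℂ :=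
  ∫ ρ in Ioi (0 : ℝ), ∫ w : Sp b, ((Lam : ℝ) : ℂ) *
    kz b L (fun s => ((chi s : ℝ) : ℂ)) (Lam * X (Fin.last a)) (Lam * ρ) v w *
    (((ρ ^ (((b : ℝ) - 1) / 2) : ℝ) : ℂ) * f (jm a b (pr X) (ρ • (w : EE b)))) ∂(sg b)

end Pool.Agent.H83.AR
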