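import Pool.Agent.H83.AR.Targets
import Pool.Agent.H93.AR.TargetsD

/-!
Bridge between `T_MA` (part B) and `T_MAL` (part D).
-/

set_option autoImplicit false

namespace Pool.Agent.H83.AR

open MeasureTheory Set FourierTransform
open Pool.Agent.H83.LS Pool.Agent.H93.AR Pool.Agent.H54.LS Pool.Agent.H14.LS
open scoped ENNReal NNReal SchwartzMap

theorem MAL_of_MA (h : T_MA) : T_MAL := by
  intro n p η hn hp hpn hη
  obtain ⟨C, hC⟩ := h n p η hn hp hpn hη
  refine ⟨C, fun lam L A f hL hlam hf => ?_⟩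
  have h1 : 1 ≤ lam := by nlinarith
  have := hC lam L A f h1 hL hf
  rw [mul_comm (L ^ 2) (lam ^ η)] at this
  exact this

end Pool.Agent.H83.AR
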