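import Pool.Agent.H93.AR.Defs
import Pool.Agent.H14.LS.Main2

/-!
Local smoothing with one angular derivative: targets of helper83 (reduction to the plane, plane
estimates, good region, pieces, restricted type estimate).
-/

set_option autoImplicit false

namespace Pool.Agent.H83.AR

open MeasureTheory Set FourierTransform
open Pool.Agent.H83.LS Pool.Agent.H93.AR Pool.Agent.H54.LS Pool.Agent.H14.LS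
open scoped ENNReal NNReal SchwartzMap

/-- the function in the plane attached to the direction `v` -/
noncomputable def GT (n : ℕ) (L Lam : ℝ) (f : EE (n + 1) → ℂ) (v : Sp n) (x : ℝ × ℝ) : ℂ :=
  ∫ ρ in Ioi (0 : ℝ), ∫ w : Sp n, ((Lam : ℝ) : ℂ) *
    kz n L (fun s => ((chi s : ℝ) : ℂ)) (Lam * x.1) (Lam * ρ) v w *
    (((ρ ^ (((n : ℝ) - 1) / 2) : ℝ) : ℂ) * f (jo (ρ • (w : EE n)) x.2)) ∂(sg n)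

/-- `Z(τ; u, v) = ∫ e(-τ u·w) z_L(w,v) dσ(w)` -/
noncomputable def ZL (n : ℕ) (L τ : ℝ) (u v : EE n) : ℂ :=
  ∫ w : Sp n, e (-(τ * inner ℝ u (w : EE n))) * ((zk n L (w : EE n) v : ℝ) : ℂ) ∂(sg n)

/-- bound for the angular part of the kernels -/
noncomputable def bz (n : ℕ) (L : ℝ) (v w : EE n) : ℝ :=
  L ^ (n - 1) * (((1 + L * ‖v - w‖) ^ (n + 1))⁻¹ + ((1 + L * ‖v + w‖) ^ (n + 1))⁻¹)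

/-- BZ: the angular kernel has bounded integral -/
def T_BZ : Prop := ∀ n : ℕ, 2 ≤ n → ∃ C : ℝ≥0, ∀ (L : ℝ) (v : Sp n), 1 ≤ L →
  ∫⁻ w : Sp n, ENNReal.ofReal (bz n L v w) ∂(sg n) ≤ C

/-- KW: the kernel bound in the good region `L² ≤ Lam r`, convenient form -/
def T_KW : Prop := ∀ n N : ℕ, 2 ≤ n → ∃ C : ℝ, 0 ≤ C ∧ ∀ (L Lam x r : ℝ) (v w : Sp n),
  1 ≤ L → 0 < Lam → L ^ 2 ≤ Lam * r →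
  ‖((Lam : ℝ) : ℂ) * kz n L (fun s => ((chi s : ℝ) : ℂ)) (Lam * x) (Lam * r) v w‖ ≤
    C * Lam * (((1 + |Lam * x - Lam * r|) ^ N)⁻¹ + ((1 + |Lam * x + Lam * r|) ^ N)⁻¹) *
      bz n L v w ∧
  ‖((Lam : ℝ) : ℂ) * kz n L (fun s => ((chis s : ℝ) : ℂ)) (Lam * x) (Lam * r) v w‖ ≤
    C * Lam * (((1 + |Lam * x - Lam * r|) ^ N)⁻¹ + ((1 + |Lam * x + Lam * r|) ^ N)⁻¹) *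
      bz n L v w

/-- GO: bounds for `GT` -/
def T_GO : Prop := ∀ n : ℕ, 2 ≤ n →
  (∃ C : ℝ, 0 ≤ C ∧ ∀ (L Lam A B : ℝ) (f : EE (n + 1) → ℂ), 1 ≤ L → 0 < Lam → BCd B f →
    (∀ x, f x ≠ 0 → L ^ 2 ≤ Lam * hor x) → (∀ x, hor x ^ (((n : ℝ) - 1) / 2) * ‖f x‖ ≤ A) →
    Measurable (fun q : Sp n × (ℝ × ℝ) => GT n L Lam f q.1 q.2) ∧
    (∀ v, Integrable (GT n L Lam f v)) ∧ (∀ v x, ‖GT n L Lam f v x‖ ≤ C * A) ∧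
    ∫⁻ v : Sp n, ∫⁻ x, ‖GT n L Lam f v x‖ₑ ^ 2 ∂volume ∂(sg n) ≤
      ENNReal.ofReal C * ∫⁻ x, ‖f x‖ₑ ^ 2) ∧
  (∀ N : ℕ, ∃ C : ℝ, 0 ≤ C ∧ ∀ (L Lam A B D : ℝ) (f : EE (n + 1) → ℂ), 1 ≤ L → 0 < Lam →
    BCd B f → (∀ x, f x ≠ 0 → L ^ 2 ≤ Lam * hor x) →
    (∀ x, hor x ^ (((n : ℝ) - 1) / 2) * ‖f x‖ ≤ A) → 1 ≤ Lam * D → (∀ x, f x ≠ 0 → D ≤ hor x) →
    (∀ (v : Sp n) (x : ℝ × ℝ), |x.1| ≤ D / 2 → ‖GT n L Lam f v x‖ ≤ C * A / (Lam * D) ^ N) ∧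
    ∫⁻ v : Sp n, ∫⁻ x in {x : ℝ × ℝ | |x.1| ≤ D / 2}, ‖GT n L Lam f v x‖ₑ ^ 2 ∂volume ∂(sg n) ≤
      ENNReal.ofReal (C / (Lam * D) ^ N) * ∫⁻ x, ‖f x‖ₑ ^ 2)

/-- RA: the Fourier transform of `GT` -/
def T_RA : Prop := ∀ (n : ℕ) (L Lam B : ℝ) (f : EE (n + 1) → ℂ) (v : Sp n) (ζ : ℝ × ℝ), 2 ≤ n →
  1 ≤ L → 0 < Lam → BCd B f → (∀ x, f x ≠ 0 → L ^ 2 ≤ Lam * hor x) →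
  Ff (GT n L Lam f v) ζ = if 0 < ζ.1 then
    ((chi (ζ.1 / Lam) * ζ.1 ^ (((n : ℝ) - 1) / 2) : ℝ) : ℂ) *
      𝓕 (AL L f) (jo (ζ.1 • (v : EE n)) ζ.2) else 0

/-- RB: the multiplier in polar coordinates -/
def T_RB : Prop := ∀ (n : ℕ) (L lam Lam t B r z : ℝ) (f : EE (n + 1) → ℂ) (w : Sp n), 2 ≤ n →
  1 ≤ L → 0 < lam → 0 < Lam → BCd B f → 0 < r →
  ((r ^ (((n : ℝ) - 1) / 2) : ℝ) : ℂ) *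
    MM (mj n lam Lam t) (AL L (AL L f)) (jo (r • (w : EE n)) z) =
  ∫ v : Sp n, ∫ ζ in {ζ : ℝ × ℝ | 0 < ζ.1}, e (z * ζ.2 + t * Real.sqrt (ζ.1 ^ 2 + ζ.2 ^ 2)) *
    ((chi (Real.sqrt (ζ.1 ^ 2 + ζ.2 ^ 2) / lam) * chi (ζ.1 / Lam) *
      ((r * ζ.1) ^ (((n : ℝ) - 1) / 2) * ζ.1 ^ (((n : ℝ) - 1) / 2)) : ℝ) : ℂ) *
    ((starRingEnd ℂ) (ZL n L (r * ζ.1) w v) * 𝓕 (AL L f) (jo (ζ.1 • (v : EE n)) ζ.2))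
      ∂volume ∂(sg n)

/-- RO: reduction to the plane -/
def T_RO : Prop := ∀ (n : ℕ) (L lam Lam t B r z : ℝ) (f : EE (n + 1) → ℂ) (w : Sp n), 2 ≤ n →
  1 ≤ L → 0 < lam → 0 < Lam → BCd B f → (∀ x, f x ≠ 0 → L ^ 2 ≤ Lam * hor x) → 0 < r →
  L ^ 2 ≤ Lam * r →
  ((r ^ (((n : ℝ) - 1) / 2) : ℝ) : ℂ) *
    MM (mj n lam Lam t) (AL L (AL L f)) (jo (r • (w : EE n)) z) =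
  ∫ v : Sp n, ∫ x₁ : ℝ, (starRingEnd ℂ) (((Lam : ℝ) : ℂ) *
      kz n L (fun s => ((chis s : ℝ) : ℂ)) (Lam * x₁) (Lam * r) w v) *
    cv (KK t lam Lam) (GT n L Lam f v) (x₁, z) ∂volume ∂(sg n)

/-- ST: the slab estimate for functions concentrated away from the slab -/
def T_ST : Prop := ∀ p β η : ℝ, 2 < p → p ≤ 3 → 0 ≤ β → β < 1 → β ≤ 2 - p / 2 → 0 < η →
  ∃ (N : ℕ) (C : ℝ), 0 ≤ C ∧ ∀ (lam Lam A D δ : ℝ) (g : ℝ × ℝ → ℂ) (X : ℝ≥0∞),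
  1 ≤ lam → 1 ≤ Lam → Lam ≤ 4 * lam → 0 < D → D ≤ 64 → Measurable g → Integrable g →
  (∀ x, ‖g x‖ ≤ A) → ∫⁻ x, ‖g x‖ₑ ^ 2 ≤ X →
  (1 ≤ Lam * D → (∀ x : ℝ × ℝ, |x.1| ≤ D / 2 → ‖g x‖ ≤ A / (Lam * D) ^ N) ∧
    ∫⁻ x in {x : ℝ × ℝ | |x.1| ≤ D / 2}, ‖g x‖ₑ ^ 2 ≤
      ENNReal.ofReal (1 / (Lam * D) ^ N) * X) →
  1 / Lam ≤ δ → δ ≤ D / 16 →
  ∫⁻ t in Icc (1 : ℝ) 2, ∫⁻ x in {x : ℝ × ℝ | |x.1| ≤ δ}, ‖cv (KK t lam Lam) g x‖ₑ ^ p ≤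
    ENNReal.ofReal (C * (lam ^ η * (δ / D) ^ β * A ^ (p - 2))) * X

/-- WP: the weighted estimate in the plane -/
def T_WP : Prop := ∀ p β η : ℝ, 2 < p → p ≤ 3 → 0 ≤ β → β < 1 → β ≤ 2 - p / 2 → 0 < η →
  ∃ (N : ℕ) (C : ℝ≥0), ∀ (lam Lam A D : ℝ) (g : ℝ × ℝ → ℂ) (X : ℝ≥0∞),
  1 ≤ lam → 1 ≤ Lam → Lam ≤ 4 * lam → 1 ≤ Lam * D → D ≤ 64 → Measurable g → Integrable g →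
  (∀ x, ‖g x‖ ≤ A) → ∫⁻ x, ‖g x‖ₑ ^ 2 ≤ X →
  (∀ x : ℝ × ℝ, |x.1| ≤ D / 2 → ‖g x‖ ≤ A / (Lam * D) ^ N) →
  ∫⁻ x in {x : ℝ × ℝ | |x.1| ≤ D / 2}, ‖g x‖ₑ ^ 2 ≤ ENNReal.ofReal (1 / (Lam * D) ^ N) * X →
  ∫⁻ t in Icc (1 : ℝ) 2, ∫⁻ x : ℝ × ℝ, ‖cv (KK t lam Lam) g x‖ₑ ^ p *
      ENNReal.ofReal ((|x.1| + 1 / Lam) ^ (-β)) ≤
    C * ENNReal.ofReal (lam ^ η * D ^ (-β) * A ^ (p - 2)) * X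

/-- PA: back from the plane: `L^p` norms with weights -/
def T_PA : Prop := ∀ (n : ℕ) (p : ℝ), 2 ≤ n → 1 ≤ p → ((n : ℝ) - 1) * (p / 2 - 1) < 1 →
  0 ≤ ((n : ℝ) - 1) * (p / 2 - 1) → ∃ C : ℝ≥0, ∀ (L lam Lam t B : ℝ) (f : EE (n + 1) → ℂ)
  (R : Set ℝ), 1 ≤ L → 0 < lam → 0 < Lam → BCd B f → (∀ x, f x ≠ 0 → L ^ 2 ≤ Lam * hor x) →
  MeasurableSet R → (∀ r ∈ R, 0 < r ∧ L ^ 2 ≤ Lam * r) →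
  (∫⁻ x in {x : EE (n + 1) | hor x ∈ R},
      ‖MM (mj n lam Lam t) (AL L (AL L f)) x‖ₑ ^ p ≤
    C * ∫⁻ v : Sp n, ∫⁻ x : ℝ × ℝ, ‖cv (KK t lam Lam) (GT n L Lam f v) x‖ₑ ^ p *
      ENNReal.ofReal ((|x.1| + 1 / Lam) ^ (-(((n : ℝ) - 1) * (p / 2 - 1)))) ∂volume ∂(sg n)) ∧
  (∀ D : ℝ, 0 < D → (∀ r ∈ R, D ≤ r) → ∫⁻ x in {x : EE (n + 1) | hor x ∈ R},
      ‖MM (mj n lam Lam t) (AL L (AL L f)) x‖ₑ ^ p ≤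
    C * ENNReal.ofReal (D ^ (-(((n : ℝ) - 1) * (p / 2 - 1)))) *
      ∫⁻ v : Sp n, ∫⁻ x : ℝ × ℝ, ‖cv (KK t lam Lam) (GT n L Lam f v) x‖ₑ ^ p ∂volume ∂(sg n))

/-- PG: good data, good output -/
def T_PG : Prop := ∀ (n : ℕ) (p η : ℝ), 2 ≤ n → 2 < p → p ≤ 2 + 2 / (n : ℝ) → 0 < η →
  ∃ C : ℝ≥0, ∀ (lam Lam L A : ℝ) (f : EE (n + 1) → ℂ), 1 ≤ lam → 1 ≤ Lam → Lam ≤ 4 * lam →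
  1 ≤ L → L ^ 2 ≤ 8 * Lam → BCd A f →
  ((∀ x, f x ≠ 0 → L ^ 2 ≤ Lam * hor x ∧ hor x ≤ 24) →
    ∫⁻ t in Icc (1 : ℝ) 2, ∫⁻ x in {x : EE (n + 1) | L ^ 2 ≤ Lam * hor x},
      ‖MM (mj n lam Lam t) (AL L (AL L f)) x‖ₑ ^ p ≤
      C * ENNReal.ofReal (lam ^ η * A ^ (p - 2)) * ∫⁻ x, ‖f x‖ₑ ^ 2) ∧
  (∀ i : ℕ, 2 ≤ i → (∀ x, f x ≠ 0 → 8 * ((i : ℝ) - 1) ≤ hor x ∧ hor x ≤ 8 * ((i : ℝ) + 2)) →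
    ∫⁻ t in Icc (1 : ℝ) 2, ∫⁻ x in {x : EE (n + 1) | 8 * (i : ℝ) ≤ hor x ∧
      hor x ≤ 8 * ((i : ℝ) + 1)}, ‖MM (mj n lam Lam t) (AL L (AL L f)) x‖ₑ ^ p ≤
      C * ENNReal.ofReal (lam ^ η * A ^ (p - 2)) * ∫⁻ x, ‖f x‖ₑ ^ 2)

/-- SU: sup bound -/
def T_SU : Prop := ∀ n : ℕ, 2 ≤ n → ∃ C : ℝ, 0 ≤ C ∧ ∀ (lam Lam t A : ℝ) (f : EE (n + 1) → ℂ),
  1 ≤ lam → 1 ≤ Lam → Lam ≤ 4 * lam → t ∈ Icc (1 : ℝ) 2 → BCd A f → ∀ x,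
  ‖MM (mj n lam Lam t) f x‖ ≤ C * (1 + Lam ^ 2 / lam) ^ ((n : ℝ) / 2) * A

/-- SV: sup bound for data near the axis -/
def T_SV : Prop := ∀ n : ℕ, 2 ≤ n → ∃ C : ℝ, 0 ≤ C ∧ ∀ (lam Lam t A δ : ℝ)
  (f : EE (n + 1) → ℂ), 1 ≤ lam → 1 ≤ Lam → Lam ≤ 4 * lam → t ∈ Icc (1 : ℝ) 2 → BCd A f →
  lam ≤ Lam ^ 2 → 1 / Lam ≤ δ → δ ≤ Lam / lam → (∀ x, f x ≠ 0 → hor x ≤ δ) → ∀ x,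
  ‖MM (mj n lam Lam t) f x‖ ≤ C * (δ * Lam) ^ ((n : ℝ) / 2) * A

/-- TE: energy near the axis -/
def T_TE : Prop := ∀ n : ℕ, 2 ≤ n → ∃ C : ℝ≥0, ∀ (lam Lam A δ : ℝ) (f : EE (n + 1) → ℂ),
  1 ≤ lam → 1 ≤ Lam → Lam ≤ 4 * lam → BCd A f → 0 < δ →
  ∫⁻ t in Icc (1 : ℝ) 2, ∫⁻ x in {x : EE (n + 1) | hor x ≤ δ}, ‖MM (mj n lam Lam t) f x‖ₑ ^ 2 ≤
    C * ENNReal.ofReal (δ * lam / Lam) * ∫⁻ x, ‖f x‖ₑ ^ 2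

/-- PI: one piece, localized data -/
def T_PI : Prop := ∀ (n : ℕ) (p η : ℝ), 2 ≤ n → 2 < p → p ≤ 2 + 2 / (n : ℝ) → 0 < η →
  ∃ C : ℝ≥0, ∀ (lam Lam L A : ℝ) (f : EE (n + 1) → ℂ), 1 ≤ lam → 1 ≤ Lam → Lam ≤ 4 * lam →
  1 ≤ L → BCd A f →
  ((∀ x, f x ≠ 0 → hor x ≤ 24) →
    ∫⁻ t in Icc (1 : ℝ) 2, ∫⁻ x, ‖MM (mj n lam Lam t) (AL L (AL L f)) x‖ₑ ^ p ≤
      C * ENNReal.ofReal (L ^ 2 * lam ^ η * A ^ (p - 2)) * ∫⁻ x, ‖f x‖ₑ ^ 2) ∧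
  (∀ i : ℕ, 2 ≤ i → (∀ x, f x ≠ 0 → 8 * ((i : ℝ) - 1) ≤ hor x ∧ hor x ≤ 8 * ((i : ℝ) + 2)) →
    ∫⁻ t in Icc (1 : ℝ) 2, ∫⁻ x in {x : EE (n + 1) | 8 * (i : ℝ) ≤ hor x ∧
      hor x ≤ 8 * ((i : ℝ) + 1)}, ‖MM (mj n lam Lam t) (AL L (AL L f)) x‖ₑ ^ p ≤
      C * ENNReal.ofReal (L ^ 2 * lam ^ η * A ^ (p - 2)) * ∫⁻ x, ‖f x‖ₑ ^ 2)

/-- MA: restricted type estimate for `T A_L²` -/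
def T_MA : Prop := ∀ (n : ℕ) (p η : ℝ), 2 ≤ n → 2 < p → p ≤ 2 + 2 / (n : ℝ) → 0 < η →
  ∃ C : ℝ≥0, ∀ (lam L A : ℝ) (f : EE (n + 1) → ℂ), 1 ≤ lam → 1 ≤ L → BCd A f →
  ∫⁻ t in Icc (1 : ℝ) 2, ∫⁻ x, ‖MM (mT lam t) (AL L (AL L f)) x‖ₑ ^ p ≤
    C * ENNReal.ofReal (L ^ 2 * lam ^ η * A ^ (p - 2)) * ∫⁻ x, ‖f x‖ₑ ^ 2

end Pool.Agent.H83.AR
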