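import Pool.Agent.H83.AR.Targets2
import Pool.Agent.H83.AR.Defs2

/-!
Local smoothing with one angular derivative, stage 2: targets of part F (reduction from
`ℝ^(a+b)` to `ℝ^(a+1)`; the second block is transplanted).
-/

set_option autoImplicit false

namespace Pool.Agent.H83.AR

open MeasureTheory Set FourierTransform
open Pool.Agent.H83.LS Pool.Agent.H93.AR Pool.Agent.H54.LS Pool.Agent.H14.LS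
open scoped ENNReal NNReal SchwartzMap

/-- JM: the splitting of `ℝ^(a+b)` -/
def T_JM : Prop := ∀ a b : ℕ,
  (∀ (y : EE a) (z : EE b), p1 a b (jm a b y z) = y ∧ p2 a b (jm a b y z) = z) ∧
  (∀ x : EE (a + b), jm a b (p1 a b x) (p2 a b x) = x) ∧
  (∀ x y : EE (a + b),
    inner ℝ x y = inner ℝ (p1 a b x) (p1 a b y) + inner ℝ (p2 a b x) (p2 a b y)) ∧
  (∀ x : EE (a + b), ‖x‖ ^ 2 = ‖p1 a b x‖ ^ 2 + ‖p2 a b x‖ ^ 2) ∧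
  (Continuous fun q : EE a × EE b => jm a b q.1 q.2) ∧ Continuous (p1 a b) ∧
  Continuous (p2 a b) ∧ Continuous (sw a b) ∧
  MeasurePreserving (fun q : EE a × EE b => jm a b q.1 q.2) (volume.prod volume) volume ∧
  (1 ≤ a → MeasurePreserving
    (fun q : Sp a × (Ioi (0 : ℝ) × EE b) => jm a b ((q.2.1 : ℝ) • (q.1 : EE a)) q.2.2)
      ((sg a).prod ((nu a).prod volume)) volume) ∧
  (1 ≤ b → MeasurePreserving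
    (fun q : Sp b × (Ioi (0 : ℝ) × EE a) => jm a b q.2.2 ((q.2.1 : ℝ) • (q.1 : EE b)))
      ((sg b).prod ((nu b).prod volume)) volume) ∧
  MeasurePreserving (sw a b) volume volume ∧
  (∀ x : EE (a + b), sw b a (sw a b x) = x ∧ ‖sw a b x‖ = ‖x‖ ∧
    p1 b a (sw a b x) = p2 a b x ∧ p2 b a (sw a b x) = p1 a b x) ∧
  (∀ x y : EE (a + b), inner ℝ (sw a b x) (sw a b y) = inner ℝ x y)

/-- SWF: exchange of the blocks, Fourier multipliers and averages -/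
def T_SWF : Prop := ∀ (a b : ℕ) (f : EE (a + b) → ℂ), 1 ≤ a → 1 ≤ b → Measurable f →
  Integrable f →
  (∀ ξ, 𝓕 (fun x => f (sw b a x)) ξ = 𝓕 f (sw b a ξ)) ∧
  (∀ (m : EE (a + b) → ℂ) (x : EE (b + a)),
    MM (fun ξ => m (sw b a ξ)) (fun x => f (sw b a x)) x = MM m f (sw b a x)) ∧
  (∀ (L : ℝ) (x : EE (b + a)), A2 b a L (fun x => f (sw b a x)) x = A1 a b L f (sw b a x) ∧
    A1 b a L (fun x => f (sw b a x)) x = A2 a b L f (sw b a x))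

/-- AM2: elementary properties of the angular averages on `ℝ^(a+b)` -/
def T_AM2 : Prop := ∀ (a b : ℕ) (L : ℝ) (P : (EE (a + b) → ℂ) → EE (a + b) → ℂ), 1 ≤ a → 1 ≤ b →
  1 ≤ L → (P = A1 a b L ∨ P = A2 a b L) →
  (∀ f : EE (a + b) → ℂ, Measurable f → Measurable (P f)) ∧
  (∀ (f : EE (a + b) → ℂ) (A : ℝ), Measurable f → (∀ x, ‖f x‖ ≤ A) → ∀ x, ‖P f x‖ ≤ A) ∧
  (∀ (f : EE (a + b) → ℂ) (p : ℝ), Measurable f → 1 ≤ p →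
    ∫⁻ x, ‖P f x‖ₑ ^ p ≤ ∫⁻ x, ‖f x‖ₑ ^ p) ∧
  (∀ f : EE (a + b) → ℂ, Measurable f → Integrable f → Integrable (P f)) ∧
  (∀ (f : EE (a + b) → ℂ) (c : ℝ → ℝ → ℂ) (x : EE (a + b)),
    P (fun x => c ‖p1 a b x‖ ‖p2 a b x‖ * f x) x = c ‖p1 a b x‖ ‖p2 a b x‖ * P f x) ∧
  (∀ f g : EE (a + b) → ℂ, Measurable f → Measurable g → (∃ A : ℝ, ∀ x, ‖f x‖ ≤ A) →
    (∃ A : ℝ, ∀ x, ‖g x‖ ≤ A) → ∀ x, P (fun x => f x - g x) x = P f x - P g x)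

/-- AF2: the angular averages commute with the Fourier transform -/
def T_AF2 : Prop := ∀ (a b : ℕ) (L : ℝ) (f : EE (a + b) → ℂ), 1 ≤ a → 1 ≤ b → 1 ≤ L →
  Measurable f → Integrable f → (∃ A : ℝ, ∀ x, ‖f x‖ ≤ A) → ∀ ξ,
  𝓕 (A1 a b L f) ξ = A1 a b L (𝓕 f) ξ ∧ 𝓕 (A2 a b L f) ξ = A2 a b L (𝓕 f) ξ

/-- AC2: the angular averages commute -/
def T_AC2 : Prop := ∀ (a b : ℕ) (L L' : ℝ) (f : EE (a + b) → ℂ), 1 ≤ a → 1 ≤ b → 1 ≤ L →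
  1 ≤ L' → Measurable f → (∃ A : ℝ, ∀ x, ‖f x‖ ≤ A) → ∀ x,
  A1 a b L (A1 a b L' f) x = A1 a b L' (A1 a b L f) x ∧
  A2 a b L (A2 a b L' f) x = A2 a b L' (A2 a b L f) x ∧
  A1 a b L (A2 a b L' f) x = A2 a b L' (A1 a b L f) x

/-- GMB: bounds for `GM` -/
def T_GMB : Prop := ∀ a b : ℕ, 1 ≤ a → 2 ≤ b →
  ∃ C : ℝ, 0 ≤ C ∧ ∀ (L Lam A B : ℝ) (f : EE (a + b) → ℂ), 1 ≤ L → 0 < Lam → BCd B f →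
    (∀ x, f x ≠ 0 → L ^ 2 ≤ Lam * ‖p2 a b x‖) →
    (∀ x, ‖p2 a b x‖ ^ (((b : ℝ) - 1) / 2) * ‖f x‖ ≤ A) →
    Measurable (fun q : Sp b × EE (a + 1) => GM a b L Lam f q.1 q.2) ∧
    (∀ v, BI (C * A) (GM a b L Lam f v)) ∧
    ∫⁻ v : Sp b, ∫⁻ X, ‖GM a b L Lam f v X‖ₑ ^ 2 ∂volume ∂(sg b) ≤
      ENNReal.ofReal C * ∫⁻ x, ‖f x‖ₑ ^ 2

/-- GC: `GM` and averages in the inert block -/
def T_GC : Prop := ∀ (a b : ℕ) (L Lam L' B : ℝ) (f : EE (a + b) → ℂ) (v : Sp b)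
  (X : EE (a + 1)), 1 ≤ a → 2 ≤ b → 1 ≤ L → 1 ≤ L' → 0 < Lam → BCd B f →
  (∀ x, f x ≠ 0 → L ^ 2 ≤ Lam * ‖p2 a b x‖) →
  GM a b L Lam (A1 a b L' f) v X = AL L' (GM a b L Lam f v) X

/-- RAm: the Fourier transform of `GM` -/
def T_RAm : Prop := ∀ (a b : ℕ) (L Lam B : ℝ) (f : EE (a + b) → ℂ) (v : Sp b) (y : EE a)
  (s : ℝ), 1 ≤ a → 2 ≤ b → 1 ≤ L → 0 < Lam → BCd B f →
  (∀ x, f x ≠ 0 → L ^ 2 ≤ Lam * ‖p2 a b x‖) →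
  𝓕 (GM a b L Lam f v) (jo y s) = if 0 < s then
    ((chi (s / Lam) * s ^ (((b : ℝ) - 1) / 2) : ℝ) : ℂ) *
      𝓕 (A2 a b L f) (jm a b y (s • (v : EE b))) else 0

/-- RBm: the multiplier in polar coordinates -/
def T_RBm : Prop := ∀ (a b : ℕ) (L lam Lam t B r : ℝ) (y : EE a) (f : EE (a + b) → ℂ)
  (w : Sp b), 1 ≤ a → 2 ≤ b → 1 ≤ L → 0 < lam → 0 < Lam → BCd B f → 0 < r →
  ((r ^ (((b : ℝ) - 1) / 2) : ℝ) : ℂ) *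
    MM (m2 a b lam Lam t) (A2 a b L (A2 a b L f)) (jm a b y (r • (w : EE b))) =
  ∫ v : Sp b, ∫ ζ in {ζ : EE (a + 1) | 0 < ζ (Fin.last a)},
    e (inner ℝ y (pr ζ) + t * ‖ζ‖) *
    ((chi (‖ζ‖ / lam) * chi (ζ (Fin.last a) / Lam) *
      ((r * ζ (Fin.last a)) ^ (((b : ℝ) - 1) / 2) *
        ζ (Fin.last a) ^ (((b : ℝ) - 1) / 2)) : ℝ) : ℂ) *
    ((starRingEnd ℂ) (ZL b L (r * ζ (Fin.last a)) w v) *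
      𝓕 (A2 a b L f) (jm a b (pr ζ) (ζ (Fin.last a) • (v : EE b)))) ∂volume ∂(sg b)

/-- ROm: reduction to `ℝ^(a+1)` -/
def T_ROm : Prop := ∀ (a b : ℕ) (L lam Lam t B r : ℝ) (y : EE a) (f : EE (a + b) → ℂ)
  (w : Sp b), 1 ≤ a → 2 ≤ b → 1 ≤ L → 0 < lam → 0 < Lam → BCd B f →
  (∀ x, f x ≠ 0 → L ^ 2 ≤ Lam * ‖p2 a b x‖) → 0 < r → L ^ 2 ≤ Lam * r →
  ((r ^ (((b : ℝ) - 1) / 2) : ℝ) : ℂ) *
    MM (m2 a b lam Lam t) (A2 a b L (A2 a b L f)) (jm a b y (r • (w : EE b))) =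
  ∫ v : Sp b, ∫ x₁ : ℝ, (starRingEnd ℂ) (((Lam : ℝ) : ℂ) *
      kz b L (fun s => ((chis s : ℝ) : ℂ)) (Lam * x₁) (Lam * r) w v) *
    MM (mS a lam Lam t) (GM a b L Lam f v) (jo y x₁) ∂volume ∂(sg b)

/-- PAm: back from `ℝ^(a+1)`: `L^p` norms with weights -/
def T_PAm : Prop := ∀ (a b : ℕ) (p : ℝ), 1 ≤ a → 2 ≤ b → 1 ≤ p →
  ((b : ℝ) - 1) * (p / 2 - 1) < 1 → 0 ≤ ((b : ℝ) - 1) * (p / 2 - 1) → ∃ C : ℝ≥0,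
  ∀ (L lam Lam t B : ℝ) (f : EE (a + b) → ℂ) (R : Set ℝ), 1 ≤ L → 0 < lam → 0 < Lam →
  BCd B f → (∀ x, f x ≠ 0 → L ^ 2 ≤ Lam * ‖p2 a b x‖) → MeasurableSet R →
  (∀ r ∈ R, 0 < r ∧ L ^ 2 ≤ Lam * r) →
  (∫⁻ x in {x : EE (a + b) | ‖p2 a b x‖ ∈ R},
      ‖MM (m2 a b lam Lam t) (A2 a b L (A2 a b L f)) x‖ₑ ^ p ≤
    C * ∫⁻ v : Sp b, ∫⁻ X : EE (a + 1), ‖MM (mS a lam Lam t) (GM a b L Lam f v) X‖ₑ ^ p *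
      ENNReal.ofReal ((|X (Fin.last a)| + 1 / Lam) ^ (-(((b : ℝ) - 1) * (p / 2 - 1))))
        ∂volume ∂(sg b)) ∧
  (∀ D : ℝ, 0 < D → (∀ r ∈ R, D ≤ r) → ∫⁻ x in {x : EE (a + b) | ‖p2 a b x‖ ∈ R},
      ‖MM (m2 a b lam Lam t) (A2 a b L (A2 a b L f)) x‖ₑ ^ p ≤
    C * ENNReal.ofReal (D ^ (-(((b : ℝ) - 1) * (p / 2 - 1)))) *
      ∫⁻ v : Sp b, ∫⁻ X : EE (a + 1), ‖MM (mS a lam Lam t) (GM a b L Lam f v) X‖ₑ ^ p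
        ∂volume ∂(sg b))

/-- WPm: the weighted estimate on `ℝ^(a+1)` -/
def T_WPm : Prop := ∀ (a : ℕ) (p β η : ℝ), 2 ≤ a → 2 < p → 0 ≤ β → β < 1 →
  (a : ℝ) * (p / 2 - 1) + β ≤ 1 → 0 < η →
  ∃ C : ℝ≥0, ∀ (lam Lam L A D : ℝ) (h : EE (a + 1) → ℂ), 1 ≤ lam → 1 ≤ Lam → Lam ≤ 4 * lam →
  1 ≤ L → 1 ≤ Lam * D → D * lam ≤ lam ^ η * Lam → BI A h →
  ∫⁻ t in Icc (1 : ℝ) 2, ∫⁻ X : EE (a + 1), ‖MM (mS a lam Lam t) (AL L (AL L h)) X‖ₑ ^ p *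
      ENNReal.ofReal ((|X (Fin.last a)| + 1 / Lam) ^ (-β)) ≤
    C * ENNReal.ofReal (L ^ 2 * lam ^ (3 * η) * D ^ (-β) * A ^ (p - 2)) * ∫⁻ x, ‖h x‖ₑ ^ 2

/-- KF: the kernel of `m2` at large distance in the second block -/
def T_KF : Prop := ∀ (a b N : ℕ) (η : ℝ), 1 ≤ a → 2 ≤ b → 0 < η → ∃ C : ℝ≥0,
  ∀ lam Lam t D : ℝ, 1 ≤ lam → lam ≤ Lam ^ 2 → 1 ≤ Lam → Lam ≤ 4 * lam → t ∈ Icc (1 : ℝ) 2 →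
  lam ^ η * Lam ≤ 4 * (D * lam) →
  ∫⁻ x in {x : EE (a + b) | D ≤ ‖p2 a b x‖}, ‖MK (m2 a b lam Lam t) x‖ₑ ≤
    C * ENNReal.ofReal ((lam ^ N)⁻¹)

/-- LI2: pointwise limits -/
def T_LI2 : Prop := ∀ (a b : ℕ) (L A : ℝ) (m f : EE (a + b) → ℂ), 1 ≤ a → 1 ≤ b → 1 ≤ L →
  BI A f → Measurable m → Integrable m → ∀ x, Filter.Tendsto (fun k : ℕ => MM m (AQ a b L
    ((Metric.closedBall (0 : EE (a + b)) (k : ℝ)).indicator f)) x) Filter.atTop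
    (nhds (MM m (AQ a b L f) x))

/-- GG: good data, good output in the second block -/
def T_GG : Prop := ∀ (a b : ℕ) (p η : ℝ), 2 ≤ a → 2 ≤ b → 2 < p →
  ((a : ℝ) + b - 1) * (p / 2 - 1) ≤ 1 → 0 < η →
  ∃ C : ℝ≥0, ∀ (lam Lam L A : ℝ) (f : EE (a + b) → ℂ), 1 ≤ lam → lam ≤ Lam ^ 2 → 1 ≤ Lam →
  Lam ≤ 4 * lam → 1 ≤ L → L ^ 2 ≤ 8 * Lam → BI A f →
  ((∀ x, f x ≠ 0 → L ^ 2 ≤ Lam * ‖p2 a b x‖ ∧ ‖p2 a b x‖ ≤ 24) →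
    ∫⁻ t in Icc (1 : ℝ) 2, ∫⁻ x in {x : EE (a + b) | L ^ 2 ≤ Lam * ‖p2 a b x‖},
      ‖MM (m2 a b lam Lam t) (AQ a b L f) x‖ₑ ^ p ≤
      C * ENNReal.ofReal (L ^ 2 * lam ^ η * A ^ (p - 2)) * ∫⁻ x, ‖f x‖ₑ ^ 2) ∧
  (∀ i : ℕ, 2 ≤ i → (∀ x, f x ≠ 0 → 8 * ((i : ℝ) - 1) ≤ ‖p2 a b x‖ ∧
      ‖p2 a b x‖ ≤ 8 * ((i : ℝ) + 2)) →
    ∫⁻ t in Icc (1 : ℝ) 2, ∫⁻ x in {x : EE (a + b) | 8 * (i : ℝ) ≤ ‖p2 a b x‖ ∧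
      ‖p2 a b x‖ ≤ 8 * ((i : ℝ) + 1)}, ‖MM (m2 a b lam Lam t) (AQ a b L f) x‖ₑ ^ p ≤
      C * ENNReal.ofReal (L ^ 2 * lam ^ η * A ^ (p - 2)) * ∫⁻ x, ‖f x‖ₑ ^ 2)

end Pool.Agent.H83.AR
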